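import Pool.Agent.H668Z.SC.Cfg

/-! Guessing geodesics (Bowditch's criterion) for graph metrics, with a general constant.
Adapted from `Pool.Agent.H59Z.NA.Tbow`. -/

set_option autoImplicit false

namespace Pool.Agent.H800Z.Bow

open Pool.Agent.H668Z.SC

variable {V : Type} (E : GS V)

/-- `γ` is a geodesic on the interval from `a` to `b`. -/
def Geo (γ : ℕ → V) (a b : ℕ) : Prop :=
  ∀ s t, a ≤ s → s ≤ t → t ≤ b → E.d (γ s) (γ t) + s = t

/-- The sets `Λ` stay within `F` of geodesics of length at most `n`. -/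
def Bd (Λ : V → V → Set V) (n F : ℕ) : Prop :=
  ∀ (γ : ℕ → V) (a b : ℕ), a ≤ b → b ≤ a + n → Geo E γ a b →
    ∀ z ∈ Λ (γ a) (γ b), ∃ s, a ≤ s ∧ s ≤ b ∧ E.d z (γ s) ≤ F

theorem geo_sub {γ : ℕ → V} {a b a' b' : ℕ} (h : Geo E γ a b) (ha : a ≤ a') (hb : b' ≤ b) :
    Geo E γ a' b' := fun s t h1 h2 h3 => h s t (ha.trans h1) h2 (h3.trans hb)

theorem bd_pow (Λ : V → V → Set V) (h : ℕ)
    (h1 : ∀ x y w, ∀ z ∈ Λ x y, ∃ z', (z' ∈ Λ x w ∨ z' ∈ Λ w y) ∧ E.d z z' ≤ h)
    (h2 : ∀ x y, E.d x y ≤ 1 → ∀ z ∈ Λ x y, E.d z x ≤ h) (p : ℕ) :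
    Bd E Λ (2 ^ p) (h * p + h) := by
  induction p with
  | zero =>
    intro γ a b hab hb hg z hz
    have := hg a b le_rfl hab le_rfl
    exact ⟨a, le_rfl, hab, (h2 _ _ (by simp at hb; omega) z hz).trans (by omega)⟩
  | succ p ih =>
    intro γ a b hab hb hg z hz
    rw [pow_succ] at hb
    rw [Nat.mul_succ]
    obtain ⟨z', hz', hd⟩ := h1 _ _ (γ (min b (a + 2 ^ p))) z hz
    rcases hz' with hz' | hz'
    · obtain ⟨s, hs1, hs2, hs3⟩ := ih γ a (min b (a + 2 ^ p)) (by omega) (by omega)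
        (geo_sub E hg le_rfl (by omega)) z' hz'
      have := E.tri z z' (γ s)
      exact ⟨s, hs1, by omega, by omega⟩
    · obtain ⟨s, hs1, hs2, hs3⟩ := ih γ (min b (a + 2 ^ p)) b (by omega) (by omega)
        (geo_sub E hg (by omega) le_rfl) z' hz'
      have := E.tri z z' (γ s)
      exact ⟨s, by omega, hs2, by omega⟩

theorem two_pow_ge (h k : ℕ) :
    2 * (h * (2 * (12 * h + 1) + k) + 4 * h) + 4 * h + 2 ≤ 2 ^ (2 * (12 * h + 1) + k) := by
  induction k with
  | zero =>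
    have h1 : 12 * h + 1 < 2 ^ (12 * h + 1) := Nat.lt_two_pow_self
    rw [add_zero, two_mul (12 * h + 1), pow_add]
    generalize 2 ^ (12 * h + 1) = Q at h1
    nlinarith
  | succ k ih =>
    rw [← add_assoc, pow_succ, Nat.mul_succ]
    omega

theorem bd_step (Λ : V → V → Set V) (h : ℕ)
    (h1 : ∀ x y w, ∀ z ∈ Λ x y, ∃ z', (z' ∈ Λ x w ∨ z' ∈ Λ w y) ∧ E.d z z' ≤ h)
    (h2 : ∀ x y, E.d x y ≤ 1 → ∀ z ∈ Λ x y, E.d z x ≤ h) (n F p : ℕ)
    (hp : 2 * F + 4 * h + 2 ≤ 2 ^ p) (hF : Bd E Λ n F) : Bd E Λ n (h * p + 3 * h) := by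
  intro γ a b hab hb hg z hz
  obtain ⟨s0, hs1, hs2, hs3⟩ := hF γ a b hab hb hg z hz
  have e1 := hg a s0 le_rfl hs1 hs2
  have e2 := hg s0 b hs1 hs2 le_rfl
  have e3 := hg a b le_rfl hab le_rfl
  have t1 := E.tri z (γ s0) (γ a)
  have t2 := E.tri z (γ s0) (γ b)
  have t3 := E.tri (γ a) z (γ b)
  have c1 := E.symm (γ s0) (γ a)
  have c2 := E.symm (γ a) z
  obtain ⟨a', ha'⟩ : ∃ a', a' = a + (E.d z (γ a) - (F + 2 * h + 1)) := ⟨_, rfl⟩
  obtain ⟨b', hb'⟩ : ∃ b', b' = b - (E.d z (γ b) - (F + 2 * h + 1)) := ⟨_, rfl⟩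
  have g1 : a ≤ a' := by omega
  have g2 : a' ≤ s0 := by omega
  have g3 : s0 ≤ b' := by omega
  have g4 : b' ≤ b := by omega
  have g5 : b' ≤ a' + 2 ^ p := by omega
  obtain ⟨z1, hz1, hd1⟩ := h1 _ _ (γ a') z hz
  rcases hz1 with hz1 | hz1
  · by_cases hl : a' = a
    · rw [hl] at hz1
      have := h2 _ _ (by rw [E.d_self]; omega) z1 hz1
      have := E.tri z z1 (γ a)
      exact ⟨a, le_rfl, hab, by omega⟩
    · obtain ⟨s, hs1', hs2', hs3'⟩ := hF γ a a' g1 (by omega)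
        (geo_sub E hg le_rfl (by omega)) z1 hz1
      have := E.tri z z1 (γ s)
      have := E.tri z (γ s) (γ a)
      have := hg a s le_rfl hs1' (by omega)
      have := E.symm (γ s) (γ a)
      omega
  · obtain ⟨z2, hz2, hd2⟩ := h1 _ _ (γ b') z1 hz1
    have t4 := E.tri z z1 z2
    rcases hz2 with hz2 | hz2
    · obtain ⟨s, hs1', hs2', hs3'⟩ := bd_pow E Λ h h1 h2 p γ a' b' (by omega) g5
        (geo_sub E hg g1 g4) z2 hz2
      have := E.tri z z2 (γ s)
      exact ⟨s, by omega, by omega, by omega⟩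
    · by_cases hl : b' = b
      · rw [hl] at hz2
        have := h2 _ _ (by rw [E.d_self]; omega) z2 hz2
        have := E.tri z z2 (γ b)
        exact ⟨b, hab, le_rfl, by omega⟩
      · obtain ⟨s, hs1', hs2', hs3'⟩ := hF γ b' b g4 (by omega)
          (geo_sub E hg (by omega) le_rfl) z2 hz2
        have := E.tri z z2 (γ s)
        have := E.tri z (γ s) (γ b)
        have := hg s b (by omega) hs2' le_rfl
        omega

theorem bd_unif (Λ : V → V → Set V) (h : ℕ)
    (h1 : ∀ x y w, ∀ z ∈ Λ x y, ∃ z', (z' ∈ Λ x w ∨ z' ∈ Λ w y) ∧ E.d z z' ≤ h)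
    (h2 : ∀ x y, E.d x y ≤ 1 → ∀ z ∈ Λ x y, E.d z x ≤ h) : ∃ M, ∀ n, Bd E Λ n M := by
  refine ⟨h * (2 * (12 * h + 1)) + 3 * h, fun n => ?_⟩
  have key : ∀ k, Bd E Λ n (h * (2 * (12 * h + 1) + k) + 3 * h) →
      Bd E Λ n (h * (2 * (12 * h + 1)) + 3 * h) := by
    intro k
    induction k with
    | zero => intro h; simpa using h
    | succ k ih =>
      intro hk
      refine ih (bd_step E Λ h h1 h2 n _ _ ?_ hk)
      have := two_pow_ge h k
      rw [← add_assoc, Nat.mul_succ]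
      omega
  refine key n ?_
  intro γ a b hab hb hg z hz
  have hn : n < 2 ^ n := Nat.lt_two_pow_self
  obtain ⟨s, hs1, hs2, hs3⟩ := bd_pow E Λ h h1 h2 n γ a b hab (by omega) hg z hz
  refine ⟨s, hs1, hs2, ?_⟩
  rw [Nat.mul_add]
  omega

theorem wgeo : ∀ (N : ℕ) (x y z : V), E.d x z + E.d z y = N → E.d x y = N →
    ∃ γ : ℕ → V, γ 0 = x ∧ γ N = y ∧ Geo E γ 0 N ∧ γ (E.d x z) = z := by
  intro N
  induction N with
  | zero =>
    intro x y z h1 h2
    refine ⟨fun _ => x, rfl, E.eq_of_d _ _ h2, ?_, E.eq_of_d x z (by omega)⟩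
    intro s t _ hst ht
    rw [E.d_self]; omega
  | succ N ih =>
    intro x y z h1 h2
    have cons : ∀ (x' : V) (γ : ℕ → V), E.d x x' = 1 → γ 0 = x' → γ N = y →
        Geo E γ 0 N → Geo E (fun s => Nat.casesOn s x γ) 0 (N + 1) := by
      intro x' γ hx h0 hN hg s t _ hst ht
      rcases s with _ | s
      · rcases t with _ | t
        · simp [E.d_self]
        · show E.d x (γ t) + 0 = t + 1
          have a1 := hg 0 t le_rfl (by omega) (by omega)
          have a2 := hg t N (by omega) (by omega) le_rfl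
          have a3 := E.tri x x' (γ t)
          have a4 := E.tri x (γ t) y
          rw [h0] at a1
          rw [hN] at a2
          omega
      · rcases t with _ | t
        · omega
        · show E.d (γ s) (γ t) + (s + 1) = t + 1
          have := hg s t (by omega) (by omega) (by omega)
          omega
    by_cases hz : E.d x z = 0
    · obtain ⟨x', hx1, hx2⟩ := E.step x y N h2
      obtain ⟨γ, g0, gN, gg, -⟩ := ih x' y x' (by rw [E.d_self]; omega) hx2
      refine ⟨fun s => Nat.casesOn s x γ, rfl, gN, cons x' γ hx1 g0 gN gg, ?_⟩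
      rw [hz]
      exact E.eq_of_d _ _ hz
    · obtain ⟨x', hx1, hx2⟩ := E.step x z (E.d x z - 1) (by omega)
      have a1 := E.tri x' z y
      have a2 := E.tri x x' y
      obtain ⟨γ, g0, gN, gg, gz⟩ := ih x' y z (by omega) (by omega)
      refine ⟨fun s => Nat.casesOn s x γ, rfl, gN, cons x' γ hx1 g0 gN gg, ?_⟩
      rw [show E.d x z = E.d x' z + 1 by omega]
      exact gz

theorem thm_bow : S_bow := by
  intro V E Λ h h1 h2 h3
  obtain ⟨F, hb⟩ := bd_unif E Λ h h1 h2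
  have near : ∀ x w, ∀ u ∈ Λ x w, ∃ v, E.Btw x v w ∧ E.d u v ≤ F := by
    intro x w u hu
    obtain ⟨γ, g0, gN, gg, -⟩ := wgeo E (E.d x w) x w x (by rw [E.d_self]; omega) rfl
    obtain ⟨s, -, hs2, hs3⟩ := hb (E.d x w) γ 0 (E.d x w) (by omega) (by omega) gg u
      (by rw [g0, gN]; exact hu)
    have a1 := gg 0 s le_rfl (by omega) hs2
    have a2 := gg s (E.d x w) (by omega) hs2 le_rfl
    rw [g0] at a1
    rw [gN] at a2
    exact ⟨γ s, by unfold GS.Btw; omega, hs3⟩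
  refine ⟨3 * F + h + 1, ?_⟩
  intro x y w z hz
  unfold GS.Btw at hz
  obtain ⟨γ, g0, gN, gg, gz⟩ := wgeo E (E.d x y) x y z hz rfl
  obtain ⟨M, ζ, z0, zM, zΛ, zs⟩ := h3 x y
  have goal : ∃ u ∈ Λ x y, E.d z u ≤ 2 * F + 1 := by
    have ind : ∀ r, r ≤ M → (∃ s', s' ≤ E.d x z ∧ E.d (ζ r) (γ s') ≤ F) ∨
        ∃ u ∈ Λ x y, E.d z u ≤ 2 * F + 1 := by
      intro r
      induction r with
      | zero =>
        intro _
        left
        exact ⟨0, by omega, by rw [z0, g0, E.d_self]; omega⟩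
      | succ r ih =>
        intro hr
        rcases ih (by omega) with ⟨s', hs1, hs2⟩ | h
        · obtain ⟨s, -, ht2, ht3⟩ := hb (E.d x y) γ 0 (E.d x y) (by omega) (by omega) gg
            (ζ (r + 1)) (by rw [g0, gN]; exact zΛ _ hr)
          by_cases hs : s ≤ E.d x z
          · exact Or.inl ⟨s, hs, ht3⟩
          · right
            have a1 := gg s' s (by omega) (by omega) ht2
            have a2 := gg s' (E.d x z) (by omega) hs1 (by omega)
            have a3 := gg (E.d x z) s (by omega) (by omega) ht2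
            rw [gz] at a2 a3
            have a4 := zs r (by omega)
            have b1 := E.tri (γ s') (ζ r) (γ s)
            have b2 := E.tri (ζ r) (ζ (r + 1)) (γ s)
            have b3 := E.symm (γ s') (ζ r)
            have b5 := E.tri z (γ s') (ζ r)
            have b6 := E.symm z (γ s')
            have b8 := E.tri z (γ s) (ζ (r + 1))
            have b9 := E.symm (γ s) (ζ (r + 1))
            by_cases hc : E.d x z ≤ s' + F + 1
            · exact ⟨ζ r, zΛ _ (by omega), by omega⟩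
            · exact ⟨ζ (r + 1), zΛ _ hr, by omega⟩
        · exact Or.inr h
    rcases ind M le_rfl with ⟨s', hs1, hs2⟩ | h
    · refine ⟨y, by rw [← zM]; simpa [zM] using zΛ M le_rfl, ?_⟩
      have a1 := gg s' (E.d x y) (by omega) (by omega) le_rfl
      rw [gN] at a1
      rw [zM, E.symm] at hs2
      omega
    · exact h
  obtain ⟨u, hu, hzu⟩ := goal
  obtain ⟨u', hu', hd⟩ := h1 x y w u hu
  have t1 := E.tri z u u'
  rcases hu' with hu' | hu'
  · obtain ⟨v, hv1, hv2⟩ := near x w u' hu'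
    have := E.tri z u' v
    exact ⟨v, Or.inl hv1, by omega⟩
  · obtain ⟨v, hv1, hv2⟩ := near w y u' hu'
    have := E.tri z u' v
    exact ⟨v, Or.inr hv1, by omega⟩

end Pool.Agent.H800Z.Bow
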